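import Mathlib

/-!
Codes with sparse parity checks: definitions and the statements of all parts
(MP_0430e4_lc, hand-in `SparseParityChecks`).
-/

set_option autoImplicit false

namespace Pool.Agent.Helper24.LD

open Finset

/-! ### incidence structures: rows `Fin m`, columns `Fin n`, row `i` is the set `I i` of columns -/

section Inc

variable {ρ γ : Type*} [Fintype ρ] [DecidableEq ρ] [Fintype γ] [DecidableEq γ]

/-- the rows met by a set of columns -/
def touched (I : ρ → Finset γ) (T : Finset γ) : Finset ρ := univ.filter fun i => (I i ∩ T).Nonempty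

/-- the rows through a column -/
def rowsOf (I : ρ → Finset γ) (c : γ) : Finset ρ := univ.filter fun i => c ∈ I i

end Inc

/-- `m` rows of size at most `w`, `n` columns in at most `c` rows each, and every nonempty set of
fewer than `d` columns meets some row in exactly one column -/
def TG (w c n m : ℕ) (d : ℝ) : Prop :=
  ∃ I : Fin m → Finset (Fin n), (∀ i, (I i).card ≤ w) ∧ (∀ j, (rowsOf I j).card ≤ c) ∧
    ∀ S : Finset (Fin n), S.Nonempty → (S.card : ℝ) < d → ∃ i, (I i ∩ S).card = 1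

/-! ### codes -/

/-- Hamming weight -/
noncomputable def wt {F : Type} [Field F] {n : ℕ} (x : Fin n → F) : ℕ := Nat.card {i // x i ≠ 0}

/-- `C` is the set of solutions of linear equations with at most `w` nonzero coefficients each -/
def Sparse {F : Type} [Field F] {n : ℕ} (w : ℕ) (C : Submodule F (Fin n → F)) : Prop :=
  ∃ P : Set (Fin n → F), (∀ h ∈ P, wt h ≤ w) ∧ ∀ x, x ∈ C ↔ ∀ h ∈ P, ∑ i, h i * x i = 0

/-- `C` is the kernel of a matrix with at most `w` nonzero entries in each row and at most `c`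
in each column -/
def SparseBoth {F : Type} [Field F] {n : ℕ} (w c : ℕ) (C : Submodule F (Fin n → F)) : Prop :=
  ∃ (m : ℕ) (H : Matrix (Fin m) (Fin n) F), (∀ i, Nat.card {j // H i j ≠ 0} ≤ w) ∧
    (∀ j, Nat.card {i // H i j ≠ 0} ≤ c) ∧ ∀ x, x ∈ C ↔ H.mulVec x = 0

/-! ### P1, P2: linear algebra -/

/-- P1: from an incidence structure to a code -/
def S_P1 : Prop :=
  ∀ (w c n m : ℕ) (d : ℝ), TG w c n m d → ∀ (F : Type) [Field F],
    ∃ C : Submodule F (Fin n → F), SparseBoth w c C ∧ (n : ℝ) - m ≤ Module.finrank F C ∧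
      ∀ x ∈ C, x ≠ 0 → d ≤ wt x

/-- P2: from a code to an incidence structure; more columns than rows give a codeword -/
def S_P2 : Prop :=
  ∀ (w n : ℕ) (F : Type) [Field F] (C : Submodule F (Fin n → F)), Sparse w C →
    ∃ (m : ℕ) (I : Fin m → Finset (Fin n)), m + Module.finrank F C = n ∧ (∀ i, (I i).card ≤ w) ∧
      ∀ T : Finset (Fin n), (touched I T).card < T.card → ∃ x ∈ C, x ≠ 0 ∧ wt x ≤ T.card

/-! ### P3: short bicyclic subgraphs -/

/-- P3 -/
def S_P3 : Prop :=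
  ∀ (V E : Type) [Fintype V] [DecidableEq V] [Fintype E] [DecidableEq E] (ends : E → Finset V)
    (ε : ℝ), 0 < ε → (∀ e, (ends e).card = 2) → 0 < Fintype.card V →
    (1 + ε) * Fintype.card V ≤ Fintype.card E →
    ∃ T : Finset E, T.Nonempty ∧ (T.biUnion ends).card < T.card ∧
      (T.card : ℝ) ≤ 4 * (Real.log (Fintype.card V) / Real.log (1 + ε) + 2) + 2

/-! ### P4: dense substructures -/

/-- P4a: bounded size -/
def S_P4a : Prop :=
  ∀ (w : ℕ) (ε : ℝ), 2 ≤ w → 0 < ε → ∃ K : ℕ, ∀ (n m : ℕ) (I : Fin m → Finset (Fin n)),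
    (∀ i, (I i).card ≤ w) → (m : ℝ) ≤ (2 / w - ε) * n → 0 < n →
    ∃ T : Finset (Fin n), T.card ≤ K ∧ (touched I T).card < T.card

/-- P4b: logarithmic size -/
def S_P4b : Prop :=
  ∀ (w : ℕ) (ε : ℝ), 2 ≤ w → 0 < ε → ∃ K : ℝ, ∀ (n m : ℕ) (I : Fin m → Finset (Fin n)),
    (∀ i, (I i).card ≤ w) → (m : ℝ) ≤ (3 / (w + 1) - ε) * n → 2 ≤ n →
    ∃ T : Finset (Fin n), (T.card : ℝ) ≤ K * Real.log n ∧ (touched I T).card < T.card

/-! ### P5, P6: random configurations -/

/-- the sets of columns whose sockets meet no row in exactly one point -/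
def badSets {N c M w : ℕ} (σ : Fin N × Fin c ≃ Fin M × Fin w) (s : ℕ) : Finset (Finset (Fin N)) :=
  (univ.powersetCard s).filter fun S =>
    ∀ i : Fin M, ((S ×ˢ univ).filter fun a => (σ a).1 = i).card ≠ 1

/-- P5: averaging over all configurations -/
def S_P5 : Prop :=
  ∀ (N c M w g : ℕ), N * c = M * w → 2 ≤ c → c * g ≤ 2 * M → 0 < N → g ≤ N →
    ∃ σ : Fin N × Fin c ≃ Fin M × Fin w,
      ∑ s ∈ Icc 1 g, ((badSets σ s).card : ℝ) ≤
        ∑ s ∈ Icc 1 g, (N.choose s : ℝ) * M.choose (c * s / 2) * (c * s / 2 * w).choose (c * s) /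
          (N * c).choose (c * s)

/-- P6a: numerical estimate for `c = 3` -/
def S_P6a : Prop :=
  ∀ (N M w s : ℕ), N * 3 = M * w → 1 ≤ s → 1 ≤ w → 1200000 * w ^ 3 * s ≤ N →
    (N.choose s : ℝ) * M.choose (3 * s / 2) * (3 * s / 2 * w).choose (3 * s) /
      (N * 3).choose (3 * s) ≤ (1 / 4) ^ s

/-- P6b: numerical estimate for `c = 2` -/
def S_P6b : Prop :=
  ∀ (N M w s : ℕ), N * 2 = M * w → 1 ≤ s → 1 ≤ w → s ≤ M → s ≤ N →
    (N.choose s : ℝ) * M.choose (2 * s / 2) * (2 * s / 2 * w).choose (2 * s) /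
      (N * 2).choose (2 * s) ≤ (41 * w) ^ s

/-! ### P7, P8: assembly of the incidence structures -/

/-- P7a: splitting the checks of a configuration.  `N` columns in three rows each, `M` rows of
size `t u` are split into `t` rows of size at most `u + 2` with `t - 1` auxiliary columns -/
def S_P7a : Prop :=
  ∀ (N M t u d : ℕ) (σ : Fin N × Fin 3 ≃ Fin M × Fin (t * u)), 1 ≤ t →
    (∀ s, 1 ≤ s → s < d → badSets σ s = ∅) →
    ∀ e : ℕ, TG (u + 2) 3 (N + M * (t - 1) + e) (M * t + e) d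

/-- P7: linear distance -/
def S_P7 : Prop :=
  ∀ (w : ℕ) (R : ℝ), 3 ≤ w → R < ((w : ℝ) - 2) / (w + 1) → ∃ δ : ℝ, 0 < δ ∧ ∃ n₀ : ℕ,
    ∀ n, n₀ ≤ n → ∃ m : ℕ, (m : ℝ) ≤ (1 - R) * n ∧ TG w 3 n m (δ * n)

/-- P8: logarithmic distance -/
def S_P8 : Prop :=
  ∀ (w : ℕ) (R : ℝ), 2 ≤ w → R < ((w : ℝ) - 2) / w → ∃ δ : ℝ, 0 < δ ∧ ∃ n₀ : ℕ,
    ∀ n, n₀ ≤ n → ∃ m : ℕ, (m : ℝ) ≤ (1 - R) * n ∧ TG w 2 n m (δ * Real.log n)

end Pool.Agent.Helper24.LD
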