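import Pool.Agent.Helper24.LD.P4
import Pool.Agent.Helper83.LD.P1
import Pool.Agent.H25.LD.P3
import Pool.Agent.Helper46.LD.P5
import Pool.Agent.Helper46.LD.P6
import Pool.Agent.Helper49.LD.P7
import Pool.Agent.Helper10.LD.P7a
import Pool.Agent.Helper10.LD.P8

/-!
Assembly.
-/

set_option autoImplicit false

namespace Pool.Agent.Helper24.LD

open Finset

theorem p7_all : S_P7 := Pool.Agent.Helper49.LD.p7 Pool.Agent.Helper46.LD.p5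
  Pool.Agent.Helper46.LD.p6a Pool.Agent.Helper10.LD.p7a

theorem p8_all : S_P8 := Pool.Agent.Helper10.LD.p8 Pool.Agent.Helper46.LD.p5
  Pool.Agent.Helper46.LD.p6b

/-- (1) linear distance -/
theorem part1 (w : ℕ) (hw : 3 ≤ w) (R : ℝ) (hR : R < ((w : ℝ) - 2) / (w + 1)) :
    ∃ δ : ℝ, 0 < δ ∧ ∃ n₀ : ℕ, ∀ n, n₀ ≤ n → ∀ (F : Type) [Field F],
      ∃ C : Submodule F (Fin n → F), SparseBoth w 3 C ∧ R * n ≤ Module.finrank F C ∧
        ∀ x ∈ C, x ≠ 0 → δ * n ≤ wt x := by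
  obtain ⟨δ, hδ, n₀, h⟩ := p7_all w R hw hR
  refine ⟨δ, hδ, n₀, fun n hn F _ => ?_⟩
  obtain ⟨m, hm, hTG⟩ := h n hn
  obtain ⟨C, h1, h2, h3⟩ := Pool.Agent.Helper83.LD.p1 w 3 n m (δ * n) hTG F
  exact ⟨C, h1, by linarith, h3⟩

/-- (3) logarithmic distance -/
theorem part3 (w : ℕ) (hw : 3 ≤ w) (R : ℝ) (hR : R < ((w : ℝ) - 2) / w) :
    ∃ δ : ℝ, 0 < δ ∧ ∃ n₀ : ℕ, ∀ n, n₀ ≤ n → ∀ (F : Type) [Field F],
      ∃ C : Submodule F (Fin n → F), SparseBoth w 2 C ∧ R * n ≤ Module.finrank F C ∧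
        ∀ x ∈ C, x ≠ 0 → δ * Real.log n ≤ wt x := by
  obtain ⟨δ, hδ, n₀, h⟩ := p8_all w R (by omega) hR
  refine ⟨δ, hδ, n₀, fun n hn F _ => ?_⟩
  obtain ⟨m, hm, hTG⟩ := h n hn
  obtain ⟨C, h1, h2, h3⟩ := Pool.Agent.Helper83.LD.p1 w 2 n m (δ * Real.log n) hTG F
  exact ⟨C, h1, by linarith, h3⟩

/-- (2) a codeword of logarithmic weight -/
theorem part2 (w : ℕ) (hw : 3 ≤ w) (ε : ℝ) (hε : 0 < ε) :
    ∃ K : ℝ, ∀ n : ℕ, 2 ≤ n → ∀ (F : Type) [Field F] (C : Submodule F (Fin n → F)),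
      Sparse w C → (((w : ℝ) - 2) / (w + 1) + ε) * n ≤ Module.finrank F C →
        ∃ x ∈ C, x ≠ 0 ∧ (wt x : ℝ) ≤ K * Real.log n := by
  obtain ⟨K, hK⟩ := p4b Pool.Agent.H25.LD.p3 w ε (by omega) hε
  refine ⟨K, fun n hn F _ C hC hdim => ?_⟩
  obtain ⟨m, I, hm, hI, hT⟩ := Pool.Agent.Helper83.LD.p2 w n F C hC
  have hmn : (m : ℝ) ≤ (3 / (w + 1) - ε) * n := by
    have h1 : (m : ℝ) + Module.finrank F C = n := by exact_mod_cast hm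
    have h2 : ((w : ℝ) - 2) / (w + 1) = 1 - 3 / (w + 1) := by
      have : (w : ℝ) + 1 ≠ 0 := by positivity
      field_simp
      ring
    rw [h2] at hdim
    nlinarith
  obtain ⟨T, h1, h2⟩ := hK n m I hI hmn hn
  obtain ⟨x, hx, hx0, hxw⟩ := hT T h2
  exact ⟨x, hx, hx0, le_trans (by exact_mod_cast hxw) h1⟩

/-- (4) a codeword of bounded weight -/
theorem part4 (w : ℕ) (hw : 3 ≤ w) (ε : ℝ) (hε : 0 < ε) :
    ∃ K : ℕ, ∀ n : ℕ, 1 ≤ n → ∀ (F : Type) [Field F] (C : Submodule F (Fin n → F)),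
      Sparse w C → (((w : ℝ) - 2) / w + ε) * n ≤ Module.finrank F C →
        ∃ x ∈ C, x ≠ 0 ∧ wt x ≤ K := by
  obtain ⟨K, hK⟩ := p4a w ε (by omega) hε
  refine ⟨K, fun n hn F _ C hC hdim => ?_⟩
  obtain ⟨m, I, hm, hI, hT⟩ := Pool.Agent.Helper83.LD.p2 w n F C hC
  have hmn : (m : ℝ) ≤ (2 / w - ε) * n := by
    have h1 : (m : ℝ) + Module.finrank F C = n := by exact_mod_cast hm
    have h2 : ((w : ℝ) - 2) / w = 1 - 2 / w := by
      have : (w : ℝ) ≠ 0 := by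
        have : (0 : ℝ) < w := by exact_mod_cast (by omega : 0 < w)
        exact this.ne'
      field_simp
    rw [h2] at hdim
    nlinarith
  obtain ⟨T, h1, h2⟩ := hK n m I hI hmn (by omega)
  obtain ⟨x, hx, hx0, hxw⟩ := hT T h2
  exact ⟨x, hx, hx0, hxw.trans h1⟩

end Pool.Agent.Helper24.LD
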