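import Pool.Agent.Helper24.LD.Rounds

/-!
Parts P4a and P4b: dense substructures of bounded and of logarithmic size.
-/

set_option autoImplicit false

namespace Pool.Agent.Helper24.LD

open Finset

section

variable {ρ γ : Type*} [Fintype ρ] [DecidableEq ρ] [Fintype γ] [DecidableEq γ]

omit [Fintype γ] in
/-- counting with weights `1, 2` -/
lemma cnt2 (I : ρ → Finset γ) (R : Finset ρ) (C : Finset γ)
    (h0 : ∀ c ∈ C, (rowsOf I c ∩ R).card ≠ 0) :
    2 * C.card ≤ (∑ c ∈ C, (rowsOf I c ∩ R).card) +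
      (C.filter fun c => (rowsOf I c ∩ R).card = 1).card := by
  rw [card_filter, ← sum_add_distrib, mul_comm, ← smul_eq_mul, ← sum_const]
  apply sum_le_sum
  intro c hc
  have := h0 c hc
  split_ifs <;> omega

omit [Fintype γ] in
/-- counting with weights `1, 2, 3` -/
lemma cnt3 (I : ρ → Finset γ) (R : Finset ρ) (C : Finset γ)
    (h0 : ∀ c ∈ C, (rowsOf I c ∩ R).card ≠ 0) :
    3 * C.card ≤ (∑ c ∈ C, (rowsOf I c ∩ R).card) +
      2 * (C.filter fun c => (rowsOf I c ∩ R).card = 1).card +
      (C.filter fun c => (rowsOf I c ∩ R).card = 2).card := by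
  rw [card_filter, card_filter, mul_sum, ← sum_add_distrib, ← sum_add_distrib, mul_comm,
    ← smul_eq_mul, ← sum_const]
  apply sum_le_sum
  intro c hc
  have := h0 c hc
  split_ifs <;> omega

/-- a column missing `R` gives a dense set -/
lemma St.single {I : ρ → Finset γ} {G : Finset γ} {D j : ℕ} {R : Finset ρ} {C : Finset γ}
    (h : St I G D j R C) {c : γ} (hc : c ∈ C) (h0 : (rowsOf I c ∩ R).card = 0) :
    ∃ T : Finset γ, T.card ≤ (1 + D) ^ j ∧ (touched I T).card < T.card := by
  have h1 := h.good (T₀ := {c}) (singleton_subset_iff.2 hc)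
    (by rw [touched_singleton, h0, card_singleton]; exact Nat.one_pos)
  simpa using h1

end

theorem p4a : S_P4a := by
  intro w ε hw hε
  have hwR : (2 : ℝ) ≤ w := by exact_mod_cast hw
  set D : ℕ := ⌈8 / ε⌉₊ with hD
  set J : ℕ := ⌈2 / ε⌉₊ with hJ
  have hD1 : 8 / ε ≤ D := Nat.le_ceil _
  have hJ1 : 2 / ε ≤ J := Nat.le_ceil _
  have hD2 : 8 ≤ ε * D := by rw [div_le_iff₀ hε] at hD1; linarith
  have hJ2 : 2 ≤ ε * J := by rw [div_le_iff₀ hε] at hJ1; linarith
  refine ⟨(1 + D) ^ J, ?_⟩
  intro n m I hI hm hn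
  have hnR : (0 : ℝ) < n := by exact_mod_cast hn
  -- `w m ≤ (2 - w ε) n`
  have hwm : (w : ℝ) * m ≤ (2 - w * ε) * n := by
    have h1 := mul_le_mul_of_nonneg_left hm (by linarith : (0 : ℝ) ≤ w)
    have h2 : (w : ℝ) * ((2 / w - ε) * n) = (2 - w * ε) * n := by
      field_simp
    linarith
  have hmn : (m : ℝ) ≤ (1 - ε) * n := by
    have h1 : (2 : ℝ) / w ≤ 1 := by rw [div_le_one (by linarith)]; exact hwR
    nlinarith
  set G : Finset (Fin n) := univ.filter fun c => (rowsOf I c).card ≤ D with hG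
  have hGD : ∀ c ∈ G, (rowsOf I c).card ≤ D := by
    intro c hc; rw [hG, mem_filter] at hc; exact hc.2
  have hheavy := heavy hI D
  rw [Fintype.card_fin] at hheavy
  have hsplit : G.card + (univ.filter fun c => ¬ (rowsOf I c).card ≤ D).card = n := by
    have := card_filter_add_card_filter_not (s := (univ : Finset (Fin n)))
      (p := fun c => (rowsOf I c).card ≤ D)
    rw [card_univ, Fintype.card_fin] at this
    exact this
  set H : ℕ := (univ.filter fun c => ¬ (rowsOf I c).card ≤ D).card with hH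
  have hGn : (1 - ε / 4) * n ≤ G.card := by
    have h1 : (H : ℝ) * (D + 1) ≤ w * m := by exact_mod_cast hheavy
    have h2 : (G.card : ℝ) + H = n := by exact_mod_cast hsplit
    have h3 : (H : ℝ) * 8 ≤ 2 * n * ε := by
      have hH0 : (0 : ℝ) ≤ H := Nat.cast_nonneg _
      have h4 : (H : ℝ) * (D + 1) ≤ 2 * n := by
        have : 0 ≤ (w : ℝ) * ε * n := by positivity
        nlinarith
      calc (H : ℝ) * 8 ≤ H * (ε * D) := mul_le_mul_of_nonneg_left hD2 hH0
        _ = ε * (H * D) := by ring
        _ ≤ ε * (2 * n) := mul_le_mul_of_nonneg_left (by nlinarith) hε.le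
        _ = 2 * n * ε := by ring
    nlinarith
  rcases loop hI hGD (ε / 2 * n) J with ⟨j, hj, R, C, hst, hL⟩ | ⟨R, C, hst, hL⟩
  · -- a column misses `R`
    by_cases hex : ∃ c ∈ C, (rowsOf I c ∩ R).card = 0
    · obtain ⟨c, hc, h0⟩ := hex
      obtain ⟨T, h1, h2⟩ := hst.single hc h0
      exact ⟨T, h1.trans (Nat.pow_le_pow_right (by omega) hj), h2⟩
    · exfalso
      push Not at hex
      have h1 := cnt2 I R C hex
      have h2 := incid hI R C
      have h3 := hst.card
      rw [Fintype.card_fin] at h3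
      have h4 : R.card ≤ m := by
        have := card_le_univ R
        rwa [Fintype.card_fin] at this
      set L : ℕ := (C.filter fun c => (rowsOf I c ∩ R).card = 1).card with hLdef
      have e1 : (2 : ℝ) * C.card ≤ w * R.card + L := by
        have : 2 * C.card ≤ w * R.card + L := by omega
        exact_mod_cast this
      have e2 : (C.card : ℝ) + m = G.card + R.card := by exact_mod_cast h3
      have e3 : (R.card : ℝ) ≤ m := by exact_mod_cast h4
      have e4 : ((w : ℝ) - 2) * R.card ≤ (w - 2) * m :=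
        mul_le_mul_of_nonneg_left e3 (by linarith)
      have e5 : 0 < ε * n := by positivity
      nlinarith
  · exfalso
    rw [Fintype.card_fin] at hL
    have h1 : (0 : ℝ) ≤ R.card := Nat.cast_nonneg _
    have h2 : (J : ℝ) * (ε / 2 * n) = ε * J / 2 * n := by ring
    have h3 : (1 : ℝ) * n ≤ ε * J / 2 * n := mul_le_mul_of_nonneg_right (by linarith) hnR.le
    have h4 : 0 < ε * n := by positivity
    nlinarith

/-- columns with exactly two rows in `R` give a multigraph; a short bicyclic subgraph gives a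
dense set -/
lemma graph (h3 : S_P3) {n m D j : ℕ} {I : Fin m → Finset (Fin n)} {G : Finset (Fin n)}
    {R : Finset (Fin m)} {C : Finset (Fin n)} (hst : St I G D j R C) {ε : ℝ} (hε : 0 < ε)
    (hRpos : 0 < R.card)
    (hE : (1 + ε) * R.card ≤ (C.filter fun c => (rowsOf I c ∩ R).card = 2).card) :
    ∃ (t : ℕ) (T' : Finset (Fin n)),
      (t : ℝ) ≤ 4 * (Real.log R.card / Real.log (1 + ε) + 2) + 2 ∧
      T'.card ≤ t * (1 + D) ^ j ∧ (touched I T').card < T'.card := by
  set C2 : Finset (Fin n) := C.filter fun c => (rowsOf I c ∩ R).card = 2 with hC2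
  let ends : {c // c ∈ C2} → Finset {i // i ∈ R} := fun c =>
    (rowsOf I c.1 ∩ R).subtype (· ∈ R)
  have hends : ∀ e, (ends e).card = 2 := by
    intro e
    have he : (rowsOf I e.1 ∩ R).card = 2 := (mem_filter.1 e.2).2
    show ((rowsOf I e.1 ∩ R).subtype (· ∈ R)).card = 2
    rw [card_subtype, filter_true_of_mem (fun i hi => (mem_inter.1 hi).2)]
    exact he
  have hV : 0 < Fintype.card {i // i ∈ R} := by rw [Fintype.card_coe]; exact hRpos
  have hE : (1 + ε) * (Fintype.card {i // i ∈ R} : ℕ) ≤ (Fintype.card {c // c ∈ C2} : ℕ) := by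
    rw [Fintype.card_coe, Fintype.card_coe]
    exact hE
  obtain ⟨T, -, hT1, hT2⟩ := h3 {i // i ∈ R} {c // c ∈ C2} ends ε hε hends hV hE
  rw [Fintype.card_coe] at hT2
  set T₀ : Finset (Fin n) := T.map (Function.Embedding.subtype _) with hT₀
  have hT₀c : T₀.card = T.card := card_map _
  have hT₀C : T₀ ⊆ C := by
    intro c hc
    rw [hT₀, mem_map] at hc
    obtain ⟨c', -, rfl⟩ := hc
    exact (mem_filter.1 c'.2).1
  have hsub : touched I T₀ ∩ R ⊆ (T.biUnion ends).map (Function.Embedding.subtype _) := by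
    intro i hi
    rw [mem_inter, mem_touched] at hi
    obtain ⟨⟨c, hc, hci⟩, hiR⟩ := hi
    rw [hT₀, mem_map] at hc
    obtain ⟨c', hc', rfl⟩ := hc
    rw [mem_map]
    refine ⟨⟨i, hiR⟩, ?_, rfl⟩
    rw [mem_biUnion]
    refine ⟨c', hc', ?_⟩
    show (⟨i, hiR⟩ : {i // i ∈ R}) ∈ (rowsOf I c'.1 ∩ R).subtype (· ∈ R)
    rw [mem_subtype, mem_inter, mem_rowsOf]
    exact ⟨hci, hiR⟩
  have hlt : (touched I T₀ ∩ R).card < T₀.card := by
    have := card_le_card hsub
    rw [card_map] at this
    omega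
  obtain ⟨T', h5, h6⟩ := hst.good hT₀C hlt
  exact ⟨T.card, T', hT2, by rw [← hT₀c]; exact h5, h6⟩

theorem p4b (h3 : S_P3) : S_P4b := by
  intro w ε hw hε
  have hwR : (2 : ℝ) ≤ w := by exact_mod_cast hw
  set D : ℕ := ⌈12 / ε⌉₊ with hD
  set J : ℕ := ⌈4 / ε⌉₊ with hJ
  have hD1 : 12 / ε ≤ D := Nat.le_ceil _
  have hJ1 : 4 / ε ≤ J := Nat.le_ceil _
  have hD2 : 12 ≤ ε * D := by rw [div_le_iff₀ hε] at hD1; linarith
  have hJ2 : 4 ≤ ε * J := by rw [div_le_iff₀ hε] at hJ1; linarith
  have hlog : 0 < Real.log (1 + ε) := Real.log_pos (by linarith)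
  refine ⟨(4 / Real.log (1 + ε) + 20) * (1 + D) ^ J, ?_⟩
  intro n m I hI hm hn
  have hn2 : (2 : ℝ) ≤ n := by exact_mod_cast hn
  have hnR : (0 : ℝ) < n := by linarith
  have hlogn : 1 / 2 ≤ Real.log n := by
    have h1 : Real.log 2 ≤ Real.log n := Real.log_le_log (by norm_num) hn2
    have h2 := Real.log_two_gt_d9
    linarith
  -- `(w + 1) m ≤ (3 - (w + 1) ε) n`
  have hwm : ((w : ℝ) + 1) * m ≤ (3 - (w + 1) * ε) * n := by
    have h1 := mul_le_mul_of_nonneg_left hm (by linarith : (0 : ℝ) ≤ (w : ℝ) + 1)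
    have h2 : ((w : ℝ) + 1) * ((3 / (w + 1) - ε) * n) = (3 - (w + 1) * ε) * n := by
      have : (w : ℝ) + 1 ≠ 0 := by positivity
      field_simp
    linarith
  have hmn : (m : ℝ) ≤ (1 - ε) * n := by
    have h1 : (3 : ℝ) / (w + 1) ≤ 1 := by rw [div_le_one (by linarith)]; linarith
    nlinarith
  set G : Finset (Fin n) := univ.filter fun c => (rowsOf I c).card ≤ D with hG
  have hGD : ∀ c ∈ G, (rowsOf I c).card ≤ D := by
    intro c hc; rw [hG, mem_filter] at hc; exact hc.2
  have hheavy := heavy hI D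
  rw [Fintype.card_fin] at hheavy
  have hsplit : G.card + (univ.filter fun c => ¬ (rowsOf I c).card ≤ D).card = n := by
    have := card_filter_add_card_filter_not (s := (univ : Finset (Fin n)))
      (p := fun c => (rowsOf I c).card ≤ D)
    rw [card_univ, Fintype.card_fin] at this
    exact this
  set H : ℕ := (univ.filter fun c => ¬ (rowsOf I c).card ≤ D).card with hH
  have hGn : (1 - ε / 4) * n ≤ G.card := by
    have h1 : (H : ℝ) * (D + 1) ≤ w * m := by exact_mod_cast hheavy
    have h2 : (G.card : ℝ) + H = n := by exact_mod_cast hsplit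
    have h3 : (H : ℝ) * 12 ≤ 3 * n * ε := by
      have hH0 : (0 : ℝ) ≤ H := Nat.cast_nonneg _
      have hm0 : (0 : ℝ) ≤ m := Nat.cast_nonneg _
      have h4 : (H : ℝ) * (D + 1) ≤ 3 * n := by
        have : 0 ≤ ((w : ℝ) + 1) * ε * n := by positivity
        nlinarith
      calc (H : ℝ) * 12 ≤ H * (ε * D) := mul_le_mul_of_nonneg_left hD2 hH0
        _ = ε * (H * D) := by ring
        _ ≤ ε * (3 * n) := mul_le_mul_of_nonneg_left (by nlinarith) hε.le
        _ = 3 * n * ε := by ring
    nlinarith
  have hpowJ : (1 : ℝ) ≤ (1 + D) ^ J := one_le_pow₀ (by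
    have : (0 : ℝ) ≤ D := Nat.cast_nonneg _
    linarith)
  rcases loop hI hGD (ε / 4 * n) J with ⟨j, hj, R, C, hst, hL⟩ | ⟨R, C, hst, hL⟩
  · by_cases hex : ∃ c ∈ C, (rowsOf I c ∩ R).card = 0
    · -- a column misses `R`
      obtain ⟨c, hc, h0⟩ := hex
      obtain ⟨T, h1, h2⟩ := hst.single hc h0
      refine ⟨T, ?_, h2⟩
      have h5 : (T.card : ℝ) ≤ (1 + D) ^ J := by
        exact_mod_cast h1.trans (Nat.pow_le_pow_right (by omega) hj)
      refine h5.trans ?_
      have h6 : 0 ≤ 4 / Real.log (1 + ε) := by positivity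
      have h7 : (1 : ℝ) ≤ (4 / Real.log (1 + ε) + 20) * Real.log n := by nlinarith
      calc ((1 + D : ℝ)) ^ J = 1 * (1 + D) ^ J := by ring
        _ ≤ ((4 / Real.log (1 + ε) + 20) * Real.log n) * (1 + D) ^ J :=
            mul_le_mul_of_nonneg_right h7 (by positivity)
        _ = _ := by ring
    · push Not at hex
      have h1 := cnt3 I R C hex
      have h2 := incid hI R C
      have h3' := hst.card
      rw [Fintype.card_fin] at h3'
      have h4 : R.card ≤ m := by
        have := card_le_univ R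
        rwa [Fintype.card_fin] at this
      set L : ℕ := (C.filter fun c => (rowsOf I c ∩ R).card = 1).card with hLdef
      set L2 : ℕ := (C.filter fun c => (rowsOf I c ∩ R).card = 2).card with hL2def
      have e1 : (3 : ℝ) * C.card ≤ w * R.card + 2 * L + L2 := by
        have : 3 * C.card ≤ w * R.card + 2 * L + L2 := by omega
        exact_mod_cast this
      have e2 : (C.card : ℝ) + m = G.card + R.card := by exact_mod_cast h3'
      have e3 : (R.card : ℝ) ≤ m := by exact_mod_cast h4
      have e4 : ((w : ℝ) - 2) * R.card ≤ (w - 2) * m :=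
        mul_le_mul_of_nonneg_left e3 (by linarith)
      have e5 : 0 < ε * n := by positivity
      have e6 : (R.card : ℝ) + ε * n ≤ L2 := by nlinarith
      -- the multigraph
      have hRpos : 0 < R.card := by
        rcases Nat.eq_zero_or_pos R.card with h | h
        · exfalso
          rw [card_eq_zero] at h
          have : L2 = 0 := by
            rw [hL2def, card_eq_zero, Finset.filter_eq_empty_iff]
            intro c _
            rw [h, inter_empty, card_empty]; omega
          rw [this] at e6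
          have : (0 : ℝ) ≤ R.card := Nat.cast_nonneg _
          push_cast at e6
          linarith
        · exact h
      have hRn' : (R.card : ℝ) ≤ n := by nlinarith
      obtain ⟨t, T', hT2, h5, h6⟩ := graph h3 hst hε hRpos (by
        have := mul_le_mul_of_nonneg_left hRn' hε.le
        rw [← hL2def]
        nlinarith)
      refine ⟨T', ?_, h6⟩
      have h7 : (T'.card : ℝ) ≤ t * (1 + D) ^ J := by
        exact_mod_cast h5.trans (Nat.mul_le_mul_left _ (Nat.pow_le_pow_right (by omega) hj))
      have hRn : Real.log R.card ≤ Real.log n :=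
        Real.log_le_log (by exact_mod_cast hRpos) hRn'
      have h8 : (t : ℝ) ≤ (4 / Real.log (1 + ε) + 20) * Real.log n := by
        refine hT2.trans ?_
        have h9 : Real.log R.card / Real.log (1 + ε) ≤ Real.log n / Real.log (1 + ε) :=
          div_le_div_of_nonneg_right hRn hlog.le
        have h10 : (4 / Real.log (1 + ε) + 20) * Real.log n =
            4 * (Real.log n / Real.log (1 + ε)) + 20 * Real.log n := by ring
        rw [h10]
        linarith
      calc (T'.card : ℝ) ≤ t * (1 + D) ^ J := h7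
        _ ≤ ((4 / Real.log (1 + ε) + 20) * Real.log n) * (1 + D) ^ J :=
            mul_le_mul_of_nonneg_right h8 (by positivity)
        _ = _ := by ring
  · exfalso
    rw [Fintype.card_fin] at hL
    have h1 : (0 : ℝ) ≤ R.card := Nat.cast_nonneg _
    have h2 : (J : ℝ) * (ε / 4 * n) = ε * J / 4 * n := by ring
    have h3 : (1 : ℝ) * n ≤ ε * J / 4 * n := mul_le_mul_of_nonneg_right (by linarith) hnR.le
    have h4 : 0 < ε * n := by positivity
    nlinarith

end Pool.Agent.Helper24.LD
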