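import Pool.Agent.Helper24.LD.Defs

/-!
Elimination of columns of degree one, in rounds.
-/

set_option autoImplicit false

namespace Pool.Agent.Helper24.LD

open Finset

section Rounds

variable {ρ γ : Type*} [Fintype ρ] [DecidableEq ρ] [Fintype γ] [DecidableEq γ]

lemma mem_rowsOf {I : ρ → Finset γ} {c : γ} {i : ρ} : i ∈ rowsOf I c ↔ c ∈ I i := by
  simp [rowsOf]

lemma mem_touched {I : ρ → Finset γ} {T : Finset γ} {i : ρ} :
    i ∈ touched I T ↔ ∃ c ∈ T, c ∈ I i := by
  simp only [touched, mem_filter, mem_univ, true_and, Finset.Nonempty, mem_inter]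
  constructor
  · rintro ⟨c, h1, h2⟩; exact ⟨c, h2, h1⟩
  · rintro ⟨c, h1, h2⟩; exact ⟨c, h2, h1⟩

lemma touched_singleton (I : ρ → Finset γ) (c : γ) : touched I {c} = rowsOf I c := by
  ext i
  rw [mem_touched, mem_rowsOf]
  simp

lemma card_touched_le (I : ρ → Finset γ) {D : ℕ} {T : Finset γ}
    (h : ∀ c ∈ T, (rowsOf I c).card ≤ D) : (touched I T).card ≤ T.card * D := by
  have h1 : touched I T ⊆ T.biUnion (rowsOf I) := by
    intro i hi
    rw [mem_touched] at hi
    obtain ⟨c, hc, hi⟩ := hi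
    rw [mem_biUnion]
    exact ⟨c, hc, mem_rowsOf.2 hi⟩
  exact (card_le_card h1).trans (card_biUnion_le_card_mul _ _ _ h)

/-- closure property -/
def Cl (I : ρ → Finset γ) (R : Finset ρ) (C : Finset γ) (B : ℕ) : Prop :=
  ∀ T₀ ⊆ C, ∃ T : Finset γ, T.card ≤ T₀.card * B ∧
    (touched I T).card + T₀.card ≤ (touched I T₀ ∩ R).card + T.card

lemma Cl.base (I : ρ → Finset γ) (G : Finset γ) : Cl I univ G 1 := by
  intro T₀ _
  exact ⟨T₀, by omega, by rw [inter_univ]⟩

/-- state after `j` rounds -/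
structure St (I : ρ → Finset γ) (G : Finset γ) (D j : ℕ) (R : Finset ρ) (C : Finset γ) : Prop where
  sub : C ⊆ G
  cl : Cl I R C ((1 + D) ^ j)
  card : C.card + Fintype.card ρ = G.card + R.card

lemma step {I : ρ → Finset γ} {G : Finset γ} {D j w : ℕ} {R : Finset ρ} {C : Finset γ}
    (hw : ∀ i, (I i).card ≤ w) (hG : ∀ c ∈ G, (rowsOf I c).card ≤ D) (h : St I G D j R C) :
    ∃ (R' : Finset ρ) (C' : Finset γ) (k : ℕ), St I G D (j + 1) R' C' ∧ R'.card + k = R.card ∧
      (C.filter fun c => (rowsOf I c ∩ R).card = 1).card ≤ w * k := by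
  classical
  set ΔR : Finset ρ := R.filter fun i => ∃ c ∈ C, rowsOf I c ∩ R = {i} with hΔ
  have hf : ∀ i ∈ ΔR, ∃ c, c ∈ C ∧ rowsOf I c ∩ R = {i} := by
    intro i hi
    rw [hΔ, mem_filter] at hi
    obtain ⟨c, hc, h⟩ := hi.2
    exact ⟨c, hc, h⟩
  rcases isEmpty_or_nonempty γ with hγ | hγ
  · -- no columns
    refine ⟨R, C, 0, ⟨h.sub, ?_, h.card⟩, by omega, ?_⟩
    · intro T₀ _
      have h1 : T₀ = ∅ := by
        rw [Finset.eq_empty_iff_forall_notMem]
        intro c; exact (hγ.false c).elim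
      refine ⟨∅, by simp, ?_⟩
      subst h1
      have : touched I (∅ : Finset γ) = ∅ := by
        rw [Finset.eq_empty_iff_forall_notMem]
        intro i hi
        rw [mem_touched] at hi
        obtain ⟨c, hc, _⟩ := hi
        simp at hc
      simp [this]
    · rw [mul_zero, Nat.le_zero, Finset.card_eq_zero, Finset.eq_empty_iff_forall_notMem]
      intro c; exact (hγ.false c).elim
  choose! f hfC hfR using hf
  have hinj : Set.InjOn f (ΔR : Set ρ) := by
    intro i hi i' hi' he
    have h1 := hfR i (by exact_mod_cast hi)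
    have h2 := hfR i' (by exact_mod_cast hi')
    rw [he, h2] at h1
    exact (singleton_injective h1).symm
  have hΔR : ΔR ⊆ R := filter_subset _ _
  refine ⟨R \ ΔR, C \ ΔR.image f, ΔR.card, ⟨?_, ?_, ?_⟩, ?_, ?_⟩
  · exact sdiff_subset.trans h.sub
  · intro T₀ hT₀
    set X : Finset ρ := touched I T₀ ∩ ΔR with hX
    have hXΔ : X ⊆ ΔR := inter_subset_right
    have hT₁ : T₀ ∪ X.image f ⊆ C := by
      apply union_subset (hT₀.trans sdiff_subset)
      intro c hc
      rw [mem_image] at hc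
      obtain ⟨i, hi, rfl⟩ := hc
      exact hfC i (hXΔ hi)
    have hdisj : Disjoint T₀ (X.image f) := by
      rw [disjoint_left]
      intro c hc hc'
      have h1 := hT₀ hc
      rw [mem_sdiff] at h1
      exact h1.2 (image_subset_image hXΔ hc')
    have hcard : (T₀ ∪ X.image f).card = T₀.card + X.card := by
      rw [card_union_of_disjoint hdisj, card_image_of_injOn (hinj.mono (by exact_mod_cast hXΔ))]
    obtain ⟨T, hT1, hT2⟩ := h.cl _ hT₁
    refine ⟨T, ?_, ?_⟩
    · have h1 : X.card ≤ T₀.card * D :=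
        (card_le_card inter_subset_left).trans
          (card_touched_le I (fun c hc => hG c (h.sub (sdiff_subset (hT₀ hc)))))
      calc T.card ≤ (T₀ ∪ X.image f).card * (1 + D) ^ j := hT1
        _ = (T₀.card + X.card) * (1 + D) ^ j := by rw [hcard]
        _ ≤ (T₀.card + T₀.card * D) * (1 + D) ^ j := Nat.mul_le_mul_right _ (by omega)
        _ = T₀.card * (1 + D) ^ (j + 1) := by ring
    · have h1 : touched I (T₀ ∪ X.image f) ∩ R ⊆ (touched I T₀ ∩ (R \ ΔR)) ∪ X := by
        intro i hi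
        rw [mem_inter, mem_touched] at hi
        obtain ⟨⟨c, hc, hci⟩, hiR⟩ := hi
        have h2 : i ∈ touched I T₀ := by
          rw [mem_union] at hc
          rcases hc with hc | hc
          · rw [mem_touched]; exact ⟨c, hc, hci⟩
          · rw [mem_image] at hc
            obtain ⟨i', hi', rfl⟩ := hc
            have h3 : i ∈ rowsOf I (f i') ∩ R := by
              rw [mem_inter, mem_rowsOf]; exact ⟨hci, hiR⟩
            rw [hfR i' (hXΔ hi'), mem_singleton] at h3
            rw [h3]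
            exact inter_subset_left hi'
        rw [mem_union, mem_inter, mem_sdiff]
        by_cases h4 : i ∈ ΔR
        · right; rw [hX, mem_inter]; exact ⟨h2, h4⟩
        · left; exact ⟨h2, hiR, h4⟩
      have h2 := (card_le_card h1).trans (card_union_le _ _)
      rw [hcard] at hT2
      omega
  · have h1 : (ΔR.image f).card = ΔR.card := card_image_of_injOn hinj
    have h2 : ΔR.image f ⊆ C := by
      intro c hc
      rw [mem_image] at hc
      obtain ⟨i, hi, rfl⟩ := hc
      exact hfC i hi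
    have h3 := card_sdiff_add_card_eq_card h2
    have h4 := card_sdiff_add_card_eq_card hΔR
    have h5 := h.card
    omega
  · exact card_sdiff_add_card_eq_card hΔR
  · have h1 : (C.filter fun c => (rowsOf I c ∩ R).card = 1) ⊆ ΔR.biUnion I := by
      intro c hc
      rw [mem_filter, card_eq_one] at hc
      obtain ⟨hc, i, hi⟩ := hc
      have h2 : i ∈ rowsOf I c ∩ R := by rw [hi]; exact mem_singleton_self i
      rw [mem_inter, mem_rowsOf] at h2
      rw [mem_biUnion]
      refine ⟨i, ?_, h2.1⟩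
      rw [hΔ, mem_filter]
      exact ⟨h2.2, c, hc, hi⟩
    refine (card_le_card h1).trans ?_
    rw [mul_comm]
    exact card_biUnion_le_card_mul _ _ _ (fun i _ => hw i)

/-- counting incidences -/
lemma incid {I : ρ → Finset γ} {w : ℕ} (hw : ∀ i, (I i).card ≤ w) (R : Finset ρ) (C : Finset γ) :
    ∑ c ∈ C, (rowsOf I c ∩ R).card ≤ w * R.card := by
  have h1 : ∑ c ∈ C, (rowsOf I c ∩ R).card = ∑ i ∈ R, (I i ∩ C).card := by
    have e1 : ∀ c, (rowsOf I c ∩ R).card = ∑ i ∈ R, if c ∈ I i then 1 else 0 := by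
      intro c
      rw [Finset.sum_boole, Nat.cast_id]
      congr 1
      ext i
      rw [mem_inter, mem_rowsOf, mem_filter]; tauto
    have e2 : ∀ i, (I i ∩ C).card = ∑ c ∈ C, if c ∈ I i then 1 else 0 := by
      intro i
      rw [Finset.sum_boole, Nat.cast_id]
      congr 1
      ext c
      rw [mem_inter, mem_filter]; tauto
    simp only [e1, e2]
    exact sum_comm
  rw [h1]
  calc ∑ i ∈ R, (I i ∩ C).card ≤ ∑ i ∈ R, w :=
        sum_le_sum fun i _ => (card_le_card inter_subset_left).trans (hw i)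
    _ = w * R.card := by rw [sum_const, smul_eq_mul, mul_comm]

/-- few heavy columns -/
lemma heavy {I : ρ → Finset γ} {w : ℕ} (hw : ∀ i, (I i).card ≤ w) (D : ℕ) :
    (univ.filter fun c => ¬ (rowsOf I c).card ≤ D).card * (D + 1) ≤ w * Fintype.card ρ := by
  have h1 := incid hw (univ : Finset ρ) (univ.filter fun c => ¬ (rowsOf I c).card ≤ D)
  rw [card_univ] at h1
  refine le_trans ?_ h1
  rw [← smul_eq_mul, ← sum_const]
  apply sum_le_sum
  intro c hc
  rw [mem_filter] at hc
  rw [inter_univ]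
  omega

/-- the loop -/
lemma loop {I : ρ → Finset γ} {G : Finset γ} {D w : ℕ} (hw : ∀ i, (I i).card ≤ w)
    (hG : ∀ c ∈ G, (rowsOf I c).card ≤ D) (a : ℝ) (j : ℕ) :
    (∃ j' ≤ j, ∃ R C, St I G D j' R C ∧
      ((C.filter fun c => (rowsOf I c ∩ R).card = 1).card : ℝ) ≤ w * a) ∨
    (∃ R C, St I G D j R C ∧ (R.card : ℝ) + j * a ≤ Fintype.card ρ) := by
  induction j with
  | zero =>
    right
    refine ⟨univ, G, ⟨subset_rfl, ?_, ?_⟩, ?_⟩
    · rw [pow_zero]; exact Cl.base I G
    · rw [card_univ]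
    · rw [card_univ]; simp
  | succ j ih =>
    rcases ih with ⟨j', hj', R, C, h1, h2⟩ | ⟨R, C, h1, h2⟩
    · exact Or.inl ⟨j', by omega, R, C, h1, h2⟩
    · obtain ⟨R', C', k, h3, h4, h5⟩ := step hw hG h1
      by_cases hk : (k : ℝ) ≤ a
      · left
        refine ⟨j, by omega, R, C, h1, ?_⟩
        have h6 : ((C.filter fun c => (rowsOf I c ∩ R).card = 1).card : ℝ) ≤ (w : ℝ) * k := by
          exact_mod_cast h5
        exact h6.trans (mul_le_mul_of_nonneg_left hk (Nat.cast_nonneg _))
      · right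
        refine ⟨R', C', h3, ?_⟩
        have h6 : (R'.card : ℝ) + k = R.card := by exact_mod_cast h4
        push_cast
        push Not at hk
        nlinarith

/-- a column missing `R` -/
lemma St.good {I : ρ → Finset γ} {G : Finset γ} {D j : ℕ} {R : Finset ρ} {C : Finset γ}
    (h : St I G D j R C) {T₀ : Finset γ} (hT : T₀ ⊆ C) (hlt : (touched I T₀ ∩ R).card < T₀.card) :
    ∃ T : Finset γ, T.card ≤ T₀.card * (1 + D) ^ j ∧ (touched I T).card < T.card := by
  obtain ⟨T, h1, h2⟩ := h.cl T₀ hT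
  exact ⟨T, h1, by omega⟩

end Rounds

end Pool.Agent.Helper24.LD
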